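import Pool.Agent.Q285.Mag.Loop

/-!
# Antipodal classes of simplicial chambers
-/

set_option autoImplicit false

namespace Pool.Agent.Q285.Mag

open Finsupp

variable {V : Type} (G : SimpleGraph V)

/-- the sets `{1}`, `{1,2}`, `{1,2,3}` -/
def e (k : ℕ) (j : Fin 4) : Bool := decide (j.val < k)

theorem sand' : ∀ k : Fin 4, ∀ p : Fin 4 → Bool, (∀ j, e k j ≤ p j) → (∀ j, p j ≤ e (k + 1) j) →
    p = e k ∨ p = e (k + 1) := by
  decide

theorem sand (k : Fin 4) (p : Fin 4 → Bool) (h : e k ≤ p) (h' : p ≤ e (k + 1)) : p = e k ∨ p = e (k + 1) :=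
  sand' k p h h'

open Classical in
/-- the cocycle of an antipodal pair -/
noncomputable def antiF (a b : V) (p : V → Fin 4 → Bool) : List V → ℤ
  | [x₀, x₁, x₂, x₃, x₄] => if x₀ = a ∧ p x₁ = e 1 ∧ p x₂ = e 2 ∧ p x₃ = e 3 ∧ x₄ = b then 1 else 0
  | _ => 0

theorem anti_comb {p₁ p₂ p₃ p₄ : Fin 4 → Bool} (h0 : p₁ ≠ ⊥) (h5 : p₄ ≠ ⊤) (h12 : p₁ ≤ p₂) (h23 : p₂ ≤ p₃)
    (h34 : p₃ ≤ p₄) :
    -(if p₂ = e 1 ∧ p₃ = e 2 ∧ p₄ = e 3 then (1 : ℤ) else 0)
    + (if p₁ = e 1 ∧ p₃ = e 2 ∧ p₄ = e 3 then 1 else 0)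
    - (if p₁ = e 1 ∧ p₂ = e 2 ∧ p₄ = e 3 then 1 else 0)
    + (if p₁ = e 1 ∧ p₂ = e 2 ∧ p₃ = e 3 then 1 else 0) = 0 := by
  have e12 : (e 1 : Fin 4 → Bool) ≠ e 2 := by decide
  have e23 : (e 2 : Fin 4 → Bool) ≠ e 3 := by decide
  have f1 : p₂ = e 1 → p₁ = e 1 := by
    intro h
    rw [h] at h12
    rcases sand 0 p₁ (by intro j; simp [e]) h12 with h' | h'
    · exact absurd (h'.trans (by decide)) h0
    · exact h'
  have f2 : p₁ = e 1 → p₃ = e 2 → p₂ = e 1 ∨ p₂ = e 2 := by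
    intro h h'
    rw [h] at h12
    rw [h'] at h23
    exact sand 1 p₂ h12 h23
  have f3 : p₂ = e 2 → p₄ = e 3 → p₃ = e 2 ∨ p₃ = e 3 := by
    intro h h'
    rw [h] at h23
    rw [h'] at h34
    exact sand 2 p₃ h23 h34
  have f4 : p₃ = e 3 → p₄ = e 3 := by
    intro h
    rw [h] at h34
    rcases sand 3 p₄ h34 (by intro j; fin_cases j <;> simp [e]) with h' | h'
    · exact h'
    · exact absurd (h'.trans (by decide)) h5
  by_cases B1 : p₂ = e 1
  · have A1 := f1 B1
    have B2 : p₂ ≠ e 2 := fun h => e12 (B1.symm.trans h)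
    simp [A1, B1, e12]
  · by_cases B2 : p₂ = e 2
    · by_cases D3 : p₄ = e 3
      · rcases f3 B2 D3 with h | h
        · simp [B2, D3, h, e12.symm, e23]
        · simp [B2, D3, h, e23.symm]
      · have C3 : p₃ ≠ e 3 := fun h => D3 (f4 h)
        simp [D3, C3]
    · by_cases A1 : p₁ = e 1
      · have C2 : p₃ ≠ e 2 := fun h => by
          rcases f2 A1 h with h' | h'
          · exact B1 h'
          · exact B2 h'
        simp [C2, B2]
      · simp [A1, B1]

theorem anti_cocycle (hG : G.Connected) {a b : V} {p : V → Fin 4 → Bool}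
    (hm : ∀ u v, G.dist a u + G.dist u v + G.dist v b = G.dist a b → p u ≤ p v)
    (hp : ∀ u, u ≠ a → u ≠ b → p u ≠ ⊥ ∧ p u ≠ ⊤) :
    ∀ m ∈ B G 4 (G.dist a b), fun' (antiF a b p) m = 0 := by
  classical
  refine vanish_on_B G _ fun l hl => ?_
  obtain ⟨x₀, x₁, x₂, x₃, x₄, x₅, rfl, h01, h12, h23, h34, h45, hlen⟩ := tuples6 G hl
  rw [bd6]
  simp only [map_add, map_sub, map_neg, apply_ite (fun' (antiF a b p)), map_zero, fun'_single]
  by_cases h0 : x₀ = a
  swap
  · simp [antiF, h0]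
  by_cases h5 : x₅ = b
  swap
  · simp [antiF, h5]
  rw [h0] at h01 hlen ⊢
  rw [h5] at h45 hlen ⊢
  have t012 := hG.dist_triangle (u := a) (v := x₁) (w := x₂)
  have t023 := hG.dist_triangle (u := a) (v := x₂) (w := x₃)
  have t034 := hG.dist_triangle (u := a) (v := x₃) (w := x₄)
  have t045 := hG.dist_triangle (u := a) (v := x₄) (w := b)
  have t345 := hG.dist_triangle (u := x₃) (v := x₄) (w := b)
  have t235 := hG.dist_triangle (u := x₂) (v := x₃) (w := b)
  have t125 := hG.dist_triangle (u := x₁) (v := x₂) (w := b)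
  have t015 := hG.dist_triangle (u := a) (v := x₁) (w := b)
  have t025 := hG.dist_triangle (u := a) (v := x₂) (w := b)
  have t035 := hG.dist_triangle (u := a) (v := x₃) (w := b)
  have t123 := hG.dist_triangle (u := x₁) (v := x₂) (w := x₃)
  have t234 := hG.dist_triangle (u := x₂) (v := x₃) (w := x₄)
  have t135 := hG.dist_triangle (u := x₁) (v := x₃) (w := b)
  have t245 := hG.dist_triangle (u := x₂) (v := x₄) (w := b)
  have p12 := hm x₁ x₂ (by omega)
  have p23 := hm x₂ x₃ (by omega)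
  have p34 := hm x₃ x₄ (by omega)
  have hpos01 := hG.pos_dist_of_ne h01
  have hpos45 := hG.pos_dist_of_ne h45
  have n1b : x₁ ≠ b := by
    intro h
    rw [h] at hlen hpos01 t125
    have := hG.pos_dist_of_ne h12
    rw [h] at this
    omega
  have n4a : x₄ ≠ a := by
    intro h
    rw [h] at hlen hpos45 t034
    have := hG.pos_dist_of_ne h34
    rw [h] at this
    omega
  have q1 := (hp x₁ h01.symm n1b).1
  have q4 := (hp x₄ n4a h45).2
  rw [if_pos (by omega), if_pos (by omega), if_pos (by omega), if_pos (by omega)]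
  simp only [antiF, true_and, and_true]
  exact anti_comb q1 q4 p12 p23 p34

end Pool.Agent.Q285.Mag
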