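import Pool.Agent.Q285.Mag.Anti

/-!
# The cycle of a simplicial chamber
-/

set_option autoImplicit false

namespace Pool.Agent.Q285.Mag

open Finsupp

variable {V : Type} (G : SimpleGraph V)

/-- `∑_π sgn π (y_∅, y_{π1}, y_{π1π2}, y_{π1π2π3}, y_{1234})`, subsets of `{1,2,3,4}` coded as bit masks -/
noncomputable def antiC (y : Fin 16 → V) : List V →₀ ℤ :=
  single [y 0, y 1, y 3, y 7, y 15] 1 - single [y 0, y 1, y 3, y 11, y 15] 1
  - single [y 0, y 1, y 5, y 7, y 15] 1 + single [y 0, y 1, y 5, y 13, y 15] 1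
  + single [y 0, y 1, y 9, y 11, y 15] 1 - single [y 0, y 1, y 9, y 13, y 15] 1
  - single [y 0, y 2, y 3, y 7, y 15] 1 + single [y 0, y 2, y 3, y 11, y 15] 1
  + single [y 0, y 2, y 6, y 7, y 15] 1 - single [y 0, y 2, y 6, y 14, y 15] 1
  - single [y 0, y 2, y 10, y 11, y 15] 1 + single [y 0, y 2, y 10, y 14, y 15] 1
  + single [y 0, y 4, y 5, y 7, y 15] 1 - single [y 0, y 4, y 5, y 13, y 15] 1
  - single [y 0, y 4, y 6, y 7, y 15] 1 + single [y 0, y 4, y 6, y 14, y 15] 1
  + single [y 0, y 4, y 12, y 13, y 15] 1 - single [y 0, y 4, y 12, y 14, y 15] 1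
  - single [y 0, y 8, y 9, y 11, y 15] 1 + single [y 0, y 8, y 9, y 13, y 15] 1
  + single [y 0, y 8, y 10, y 11, y 15] 1 - single [y 0, y 8, y 10, y 14, y 15] 1
  - single [y 0, y 8, y 12, y 13, y 15] 1 + single [y 0, y 8, y 12, y 14, y 15] 1

/-- inclusion of bit masks -/
def sub (s t : Fin 16) : Prop := s.val &&& t.val = s.val

instance (s t : Fin 16) : Decidable (sub s t) := inferInstanceAs (Decidable (_ = _))

theorem antiC_mem {y : Fin 16 → V} (hi : Function.Injective y)
    (hy : ∀ s t u, sub s t → sub t u → G.dist (y s) (y u) = G.dist (y s) (y t) + G.dist (y t) (y u))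
    (h6 : G.dist (y 0) (y 15) = 6) : antiC y ∈ Z G 4 6 := by
  classical
  have hs : ∀ i j k : Fin 16, 0 ≠ i → i ≠ j → j ≠ k → k ≠ 15 → sub i j → sub j k →
      (single [y 0, y i, y j, y k, y 15] 1 : List V →₀ ℤ) ∈ MC G 4 6 := by
    intro i j k h1 h2 h3 h4 s1 s2
    refine single_mem_supported ℤ 1 (mem_tuples5 G (hi.ne h1) (hi.ne h2) (hi.ne h3) (hi.ne h4) ?_)
    have s0 : ∀ i : Fin 16, sub 0 i := by decide
    have s15 : ∀ i : Fin 16, sub i 15 := by decide
    have a1 := hy 0 i j (s0 i) s1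
    have a2 := hy 0 j k (s0 j) s2
    have a3 := hy 0 k 15 (s0 k) (s15 k)
    omega
  refine ⟨?_, ?_⟩
  · unfold antiC
    repeat' first | refine add_mem ?_ ?_ | refine sub_mem ?_ ?_
    all_goals exact hs _ _ _ (by decide) (by decide) (by decide) (by decide) (by decide) (by decide)
  · change del G (antiC y) = 0
    have key : ∀ s t u, sub s t → sub t u →
        ((G.dist (y s) (y u) = G.dist (y s) (y t) + G.dist (y t) (y u)) = True) :=
      fun s t u h1 h2 => eq_true (hy s t u h1 h2)
    unfold antiC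
    simp only [map_add, map_sub, del_single, one_smul, bd5]
    simp (decide := true) only [key, if_true]
    abel

theorem antiF_antiC {y : Fin 16 → V} {p : V → Fin 4 → Bool}
    (hp : ∀ s, p (y s) = fun j => s.val.testBit j.val) : fun' (antiF (y 0) (y 15) p) (antiC y) = 1 := by
  classical
  unfold antiC
  simp only [map_add, map_sub, fun'_single, antiF, hp, true_and, and_true]
  simp (decide := true)

end Pool.Agent.Q285.Mag
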