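import Mathlib

/-!
# Finite checks, chambers coded by bit masks (bits `0,…,5`: the forms `x, y, x+y, z, w, x+z+w`)
-/

set_option autoImplicit false

namespace Pool.Agent.Q285.Mag

/-- number of ones among the six lowest bits -/
def pc (x : ℕ) : ℕ := x % 2 + x / 2 % 2 + x / 4 % 2 + x / 8 % 2 + x / 16 % 2 + x / 32 % 2

/-- Hamming distance -/
def hm (x y : ℕ) : ℕ := pc (x ^^^ y)

/-- realizable sign vectors -/
def good (m : ℕ) : Bool :=
  !((m.testBit 0 == m.testBit 1) && (m.testBit 2 != m.testBit 0)) &&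
  !((m.testBit 0 == m.testBit 3) && (m.testBit 3 == m.testBit 4) && (m.testBit 5 != m.testBit 0))

theorem chk_card : (Finset.univ.filter fun m : Fin 64 => good m = true).card = 42 := by decide +kernel

theorem chk_pc : ∀ x : Fin 64, (Finset.univ.filter fun i : Fin 6 => x.val.testBit i = true).card = pc x := by
  decide +kernel

theorem chk_step : ∀ m m' : Fin 64, good m = true → good m' = true → m ≠ m' →
    ∃ i : Fin 6, good (m ^^^ 2 ^ i.val) = true ∧ hm (m ^^^ 2 ^ i.val) m' + 1 = hm m m' := by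
  decide +kernel

/-! ### loops -/

/-- the six chambers around the flat -/
def hexa : Fin 6 → ℕ := ![7, 6, 2, 0, 1, 5]

/-- the six chambers of the restriction -/
def rest : Fin 6 → ℕ := ![0, 1, 2, 5, 6, 7]

/-- the `i`-th chamber of the loop that starts at the `q.1`-th chamber -/
def hma (q : Fin 6 × Fin 6) (i : Fin 6) : ℕ := hexa (q.1 + i) + 8 * rest q.2

/-- the first wall -/
def wal (q : Fin 6 × Fin 6) : Fin 6 := ![0, 2, 1, 0, 2, 1] q.1

def cyc' (i j : Fin 6) : ℕ := ![0, 1, 2, 3, 2, 1] (i - j)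

theorem chk_hma : ∀ q : Fin 6 × Fin 6, ∀ i : Fin 6, hma q i < 64 ∧ good (hma q i) = true := by
  decide +kernel

theorem chk_cyc : ∀ q : Fin 6 × Fin 6, ∀ i j : Fin 6, hm (hma q i) (hma q j) = cyc' i j := by
  decide +kernel

theorem chk_start : ∀ q q' : Fin 6 × Fin 6, hma q 0 = hma q' 0 → q = q' := by decide +kernel

/-- the side of the open interval -/
def side (q : Fin 6 × Fin 6) (m : ℕ) : Bool := (hma q 0).testBit (wal q) != m.testBit (wal q)

theorem chk_side : ∀ q : Fin 6 × Fin 6, side q (hma q 1) = true ∧ side q (hma q 2) = true ∧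
    side q (hma q 4) = false ∧ side q (hma q 5) = false := by decide +kernel

/-- the interval condition -/
def condL (q : Fin 6 × Fin 6) (m m' : ℕ) : Bool :=
  bif hm (hma q 0) m + hm m (hma q 3) == 3 then
    !(good m) || !(good m') || (m == hma q 0) || (m' == hma q 3) || (m == m') ||
      (hm (hma q 0) m + hm m m' + hm m' (hma q 3) != 3) || (side q m == side q m')
  else true

theorem chk_condL : ∀ q : Fin 6 × Fin 6, ∀ m m' : Fin 64, condL q m m' = true := by decide +kernel

/-! ### antipodal classes -/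

/-- seven simplicial chambers -/
def simp7 : Fin 7 → ℕ := ![61, 2, 13, 50, 21, 42, 39]

/-- their walls -/
def walls : Fin 7 → Fin 4 → ℕ :=
  ![![1, 2, 3, 4], ![1, 2, 3, 4], ![1, 2, 3, 5], ![1, 2, 3, 5], ![1, 2, 4, 5], ![1, 2, 4, 5], ![1, 3, 4, 5]]

/-- closure in the matroid -/
def cl (m : ℕ) : ℕ :=
  let m₁ := bif decide (2 ≤ pc (m &&& 7)) then m ||| 7 else m
  let m₂ := bif decide (3 ≤ pc (m₁ &&& 57)) then m₁ ||| 57 else m₁
  bif decide (2 ≤ pc (m₂ &&& 7)) then m₂ ||| 7 else m₂

/-- the chamber opposite to the `k`-th simplicial chamber with respect to the face on the walls in `s` -/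
def yma (k : Fin 7) (s : ℕ) : ℕ :=
  simp7 k ^^^ cl ((bif s.testBit 0 then 2 ^ walls k 0 else 0) + (bif s.testBit 1 then 2 ^ walls k 1 else 0) +
    (bif s.testBit 2 then 2 ^ walls k 2 else 0) + (bif s.testBit 3 then 2 ^ walls k 3 else 0))

theorem chk_yma : ∀ k : Fin 7, ∀ s : Fin 16, yma k s < 64 ∧ good (yma k s) = true := by decide +kernel

theorem chk_yinj : ∀ k : Fin 7, ∀ s t : Fin 16, yma k s = yma k t → s = t := by decide +kernel

/-- additivity along chains -/
def condY (k : Fin 7) (s t u : ℕ) : Bool :=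
  (s &&& t != s) || (t &&& u != t) || (hm (yma k s) (yma k u) == hm (yma k s) (yma k t) + hm (yma k t) (yma k u))

theorem chk_condY : ∀ k : Fin 7, ∀ s t u : Fin 16, condY k s t u = true := by decide +kernel

theorem chk_six : ∀ k : Fin 7, hm (yma k 0) (yma k 15) = 6 := by decide +kernel

/-- the `j`-th wall is crossed -/
def crs (k : Fin 7) (m : ℕ) (j : Fin 4) : Bool := (simp7 k).testBit (walls k j) != m.testBit (walls k j)

theorem chk_crs : ∀ k : Fin 7, ∀ s : Fin 16, ∀ j : Fin 4, crs k (yma k s) j = s.val.testBit j := by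
  decide +kernel

/-- monotonicity -/
def condMono (k : Fin 7) (m m' : ℕ) : Bool :=
  (hm (yma k 0) m + hm m m' + hm m' (yma k 15) != 6) ||
    ((!(crs k m 0) || crs k m' 0) && (!(crs k m 1) || crs k m' 1) && (!(crs k m 2) || crs k m' 2) &&
      (!(crs k m 3) || crs k m' 3))

theorem chk_condMono : ∀ k : Fin 7, ∀ m m' : Fin 64, condMono k m m' = true := by decide +kernel

/-- properness -/
def condP (k : Fin 7) (m : ℕ) : Bool :=
  !(good m) || (m == yma k 0) || (m == yma k 15) ||
    ((crs k m 0 || crs k m 1 || crs k m 2 || crs k m 3) &&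
      !(crs k m 0 && crs k m 1 && crs k m 2 && crs k m 3))

theorem chk_condP : ∀ k : Fin 7, ∀ m : Fin 64, condP k m = true := by decide +kernel

theorem chk_astart : ∀ k k' : Fin 7, yma k 0 = yma k' 0 → k = k' := by decide +kernel

end Pool.Agent.Q285.Mag
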