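import Pool.Agent.Q285.Mag.Dist
import Pool.Agent.Q285.Mag.Masks

/-!
# The arrangement `x, y, x+y, z, w, x+z+w` in `ℝ⁴`
-/

set_option autoImplicit false

namespace Pool.Agent.Q285.Mag

/-- the normal vectors -/
def nor : Fin 6 → Fin 4 → ℝ :=
  ![![1, 0, 0, 0], ![0, 1, 0, 0], ![1, 1, 0, 0], ![0, 0, 1, 0], ![0, 0, 0, 1], ![1, 0, 1, 1]]

theorem nor0 (x : Fin 4 → ℝ) : nor 0 ⬝ᵥ x = x 0 := by simp [nor, dotProduct, Fin.sum_univ_four]
theorem nor1 (x : Fin 4 → ℝ) : nor 1 ⬝ᵥ x = x 1 := by simp [nor, dotProduct, Fin.sum_univ_four]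
theorem nor2 (x : Fin 4 → ℝ) : nor 2 ⬝ᵥ x = x 0 + x 1 := by simp [nor, dotProduct, Fin.sum_univ_four]
theorem nor3 (x : Fin 4 → ℝ) : nor 3 ⬝ᵥ x = x 2 := by simp [nor, dotProduct, Fin.sum_univ_four]
theorem nor4 (x : Fin 4 → ℝ) : nor 4 ⬝ᵥ x = x 3 := by simp [nor, dotProduct, Fin.sum_univ_four]
theorem nor5 (x : Fin 4 → ℝ) : nor 5 ⬝ᵥ x = x 0 + x 2 + x 3 := by
  simp [nor, dotProduct, Fin.sum_univ_four]

/-- the standard basis vector -/
theorem isArrangement_nor : IsArrangement nor := by
  constructor
  · intro i h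
    have h' := congrFun h
    fin_cases i
    · simpa [nor] using h' 0
    · simpa [nor] using h' 1
    · simpa [nor] using h' 0
    · simpa [nor] using h' 2
    · simpa [nor] using h' 3
    · simpa [nor] using h' 0
  · intro i j h
    have key : ∀ x : Fin 4 → ℝ, nor i ⬝ᵥ x = 0 ↔ nor j ⬝ᵥ x = 0 := by
      intro x
      have := SetLike.ext_iff.1 h x
      simpa only [mem_hyp] using this
    have k1 := key ![0, 1, 0, 0]
    have k2 := key ![1, -1, 0, 0]
    have k3 := key ![1, 0, 0, 0]
    have k4 := key ![0, 0, 1, 0]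
    have k5 := key ![0, 0, 0, 1]
    fin_cases i <;> fin_cases j <;>
      simp [nor, dotProduct, Fin.sum_univ_four] at k1 k2 k3 k4 k5 ⊢

theorem rank_nor : rank nor = 4 := by
  have : (⨅ i, hyp nor i : Submodule ℝ (Fin 4 → ℝ)) = ⊥ := by
    rw [eq_bot_iff]
    intro x hx
    rw [Submodule.mem_iInf] at hx
    have h0 := hx 0
    have h1 := hx 1
    have h3 := hx 3
    have h4 := hx 4
    rw [mem_hyp, nor0] at h0
    rw [mem_hyp, nor1] at h1
    rw [mem_hyp, nor3] at h3
    rw [mem_hyp, nor4] at h4
    rw [Submodule.mem_bot]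
    funext j
    fin_cases j <;> simpa
  unfold rank
  rw [this, finrank_bot]

theorem indecomposable_nor : Indecomposable nor := by
  rintro ⟨V₁, V₂, hc, hall, ⟨i₁, h₁⟩, ⟨i₂, h₂⟩⟩
  -- the projection to `V₂` along `V₁`
  have hdec : ∀ x : Fin 4 → ℝ, ∃ p, p ∈ V₂ ∧ x - p ∈ V₁ := by
    intro x
    obtain ⟨a, ha, b, hb, hab⟩ := Submodule.mem_sup.1 (hc.sup_eq_top ▸ Submodule.mem_top : x ∈ V₁ ⊔ V₂)
    exact ⟨b, hb, by rw [← hab, add_sub_cancel_right]; exact ha⟩
  choose p hp2 hp1 using hdec
  have hkey : ∀ i, (∀ x, nor i ⬝ᵥ p x = nor i ⬝ᵥ x) ∨ (∀ x, nor i ⬝ᵥ p x = 0) := by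
    intro i
    rcases hall i with h | h
    · left
      intro x
      have := h (hp1 x)
      rw [mem_hyp, dotProduct_sub, sub_eq_zero] at this
      exact this.symm
    · right
      intro x
      exact h (hp2 x)
  have hA : ∀ i, V₁ ≤ hyp nor i → ∀ x, nor i ⬝ᵥ p x = nor i ⬝ᵥ x := by
    intro i h x
    have := h (hp1 x)
    rw [mem_hyp, dotProduct_sub, sub_eq_zero] at this
    exact this.symm
  have hB : ∀ i, V₂ ≤ hyp nor i → ∀ x, nor i ⬝ᵥ p x = 0 := fun i h x => h (hp2 x)
  have hA' := hA i₁ h₁
  have hB' := hB i₂ h₂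
  have k0 := hkey 0
  have k1 := hkey 1
  have k2 := hkey 2
  have k3 := hkey 3
  have k4 := hkey 4
  have k5 := hkey 5
  simp only [nor0, nor1, nor2, nor3, nor4, nor5] at k0 k1 k2 k3 k4 k5
  -- all forms are of the same kind
  have hsame : (∀ i, ∀ x, nor i ⬝ᵥ p x = nor i ⬝ᵥ x) ∨ (∀ i, ∀ x, nor i ⬝ᵥ p x = 0) := by
    have ex : ∀ f : (Fin 4 → ℝ) → ℝ, ∀ g : (Fin 4 → ℝ) → ℝ, (∀ x, f x = g x) →
        f ![1, 0, 0, 0] = g ![1, 0, 0, 0] ∧ f ![0, 1, 0, 0] = g ![0, 1, 0, 0] ∧
        f ![0, 0, 1, 0] = g ![0, 0, 1, 0] ∧ f ![0, 0, 0, 1] = g ![0, 0, 0, 1] :=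
      fun f g h => ⟨h _, h _, h _, h _⟩
    rcases k0 with k0 | k0
    · left
      have h2 : ∀ x, p x 0 + p x 1 = x 0 + x 1 := by
        rcases k2 with k2 | k2
        · exact k2
        · exfalso
          have a := k0 ![1, 0, 0, 0]
          have b := k2 ![1, 0, 0, 0]
          rcases k1 with k1 | k1
          · have c := k1 ![1, 0, 0, 0]
            simp at a b c
            linarith
          · have c := k1 ![1, 0, 0, 0]
            simp at a b c
            linarith
      have h1 : ∀ x, p x 1 = x 1 := fun x => by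
        have := h2 x
        have := k0 x
        linarith
      have h5 : ∀ x, p x 0 + p x 2 + p x 3 = x 0 + x 2 + x 3 := by
        rcases k5 with k5 | k5
        · exact k5
        · exfalso
          have a := k0 ![1, 0, 0, 0]
          have b := k5 ![1, 0, 0, 0]
          have c : p ![1, 0, 0, 0] 2 = 0 := by
            rcases k3 with k3 | k3
            · simpa using k3 ![1, 0, 0, 0]
            · exact k3 _
          have d : p ![1, 0, 0, 0] 3 = 0 := by
            rcases k4 with k4 | k4
            · simpa using k4 ![1, 0, 0, 0]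
            · exact k4 _
          simp at a b
          linarith
      have h3 : ∀ x, p x 2 = x 2 := by
        rcases k3 with k3 | k3
        · exact k3
        · exfalso
          have a := k0 ![0, 0, 1, 0]
          have b := h5 ![0, 0, 1, 0]
          have c := k3 ![0, 0, 1, 0]
          have d : p ![0, 0, 1, 0] 3 = 0 := by
            rcases k4 with k4 | k4
            · simpa using k4 ![0, 0, 1, 0]
            · exact k4 _
          simp at a b
          linarith
      have h4 : ∀ x, p x 3 = x 3 := fun x => by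
        have := h5 x
        have := h3 x
        have := k0 x
        linarith
      intro i x
      fin_cases i
      · simpa only [Fin.zero_eta, nor0] using k0 x
      · simpa only [Fin.mk_one, nor1] using h1 x
      · simpa only [Fin.reduceFinMk, nor2] using h2 x
      · simpa only [Fin.reduceFinMk, nor3] using h3 x
      · simpa only [Fin.reduceFinMk, nor4] using h4 x
      · simpa only [Fin.reduceFinMk, nor5] using h5 x
    · right
      have h2 : ∀ x, p x 0 + p x 1 = 0 := by
        rcases k2 with k2 | k2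
        · exfalso
          have a := k0 ![1, 0, 0, 0]
          have b := k2 ![1, 0, 0, 0]
          rcases k1 with k1 | k1
          · have c := k1 ![1, 0, 0, 0]
            simp at b c
            linarith
          · have c := k1 ![1, 0, 0, 0]
            simp at b
            linarith
        · exact k2
      have h1 : ∀ x, p x 1 = 0 := fun x => by
        have := h2 x
        have := k0 x
        linarith
      have h5 : ∀ x, p x 0 + p x 2 + p x 3 = 0 := by
        rcases k5 with k5 | k5
        · exfalso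
          have a := k0 ![1, 0, 0, 0]
          have b := k5 ![1, 0, 0, 0]
          have c : p ![1, 0, 0, 0] 2 = 0 := by
            rcases k3 with k3 | k3
            · simpa using k3 ![1, 0, 0, 0]
            · exact k3 _
          have d : p ![1, 0, 0, 0] 3 = 0 := by
            rcases k4 with k4 | k4
            · simpa using k4 ![1, 0, 0, 0]
            · exact k4 _
          simp at b
          linarith
        · exact k5
      have h3 : ∀ x, p x 2 = 0 := by
        rcases k3 with k3 | k3
        · exfalso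
          have a := k0 ![0, 0, 1, 0]
          have b := h5 ![0, 0, 1, 0]
          have c := k3 ![0, 0, 1, 0]
          have d : p ![0, 0, 1, 0] 3 = 0 := by
            rcases k4 with k4 | k4
            · simpa using k4 ![0, 0, 1, 0]
            · exact k4 _
          simp at c
          linarith
        · exact k3
      have h4 : ∀ x, p x 3 = 0 := fun x => by
        have := h5 x
        have := h3 x
        have := k0 x
        linarith
      intro i x
      fin_cases i
      · simpa only [Fin.zero_eta, nor0] using k0 x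
      · simpa only [Fin.mk_one, nor1] using h1 x
      · simpa only [Fin.reduceFinMk, nor2] using h2 x
      · simpa only [Fin.reduceFinMk, nor3] using h3 x
      · simpa only [Fin.reduceFinMk, nor4] using h4 x
      · simpa only [Fin.reduceFinMk, nor5] using h5 x
  have hex : ∀ i, ∃ x, nor i ⬝ᵥ x ≠ 0 := by
    intro i
    refine ⟨nor i, fun h => isArrangement_nor.1 i ?_⟩
    exact dotProduct_self_eq_zero.1 h
  rcases hsame with h | h
  · obtain ⟨x, hx⟩ := hex i₂
    exact hx ((h i₂ x).symm.trans (hB' x))
  · obtain ⟨x, hx⟩ := hex i₁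
    exact hx ((hA' x).symm.trans (h i₁ x))

end Pool.Agent.Q285.Mag
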