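import Pool.Agent.Q285.Mag.Arr

/-!
# The 42 chambers
-/

set_option autoImplicit false

namespace Pool.Agent.Q285.Mag

/-- realizability, as a condition on sign vectors -/
def goodB (ε : Fin 6 → Bool) : Prop :=
  ¬ (ε 0 = ε 1 ∧ ε 2 ≠ ε 0) ∧ ¬ (ε 0 = ε 3 ∧ ε 3 = ε 4 ∧ ε 5 ≠ ε 0)

/-- `±1` -/
noncomputable def pm (b : Bool) : ℝ := if b then 1 else -1

/-- a point with the given signs -/
noncomputable def pt (ε : Fin 6 → Bool) : Fin 4 → ℝ :=
  ![pm (ε 0), pm (ε 1) * (if ε 2 = ε 0 then 1 / 2 else 2),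
    pm (ε 3) * (if ε 5 = ε 0 then 1 / 4 else if ε 3 = ε 0 then 1 else 3),
    pm (ε 4) * (if ε 5 = ε 0 then 1 / 4 else if ε 4 = ε 0 then 1 else 3)]

theorem pt_spec (ε : Fin 6 → Bool) (h : goodB ε) (i : Fin 6) :
    (ε i = true → 0 < nor i ⬝ᵥ pt ε) ∧ (ε i = false → nor i ⬝ᵥ pt ε < 0) := by
  obtain ⟨h1, h2⟩ := h
  have e0 : pt ε 0 = pm (ε 0) := rfl
  have e1 : pt ε 1 = pm (ε 1) * (if ε 2 = ε 0 then 1 / 2 else 2) := rfl
  have e2 : pt ε 2 = pm (ε 3) * (if ε 5 = ε 0 then 1 / 4 else if ε 3 = ε 0 then 1 else 3) := rfl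
  have e3 : pt ε 3 = pm (ε 4) * (if ε 5 = ε 0 then 1 / 4 else if ε 4 = ε 0 then 1 else 3) := rfl
  cases q0 : ε 0 <;> cases q1 : ε 1 <;> cases q2 : ε 2 <;> cases q3 : ε 3 <;> cases q4 : ε 4 <;>
    cases q5 : ε 5 <;> simp only [q0, q1, q2, q3, q4, q5, pm] at h1 h2 e0 e1 e2 e3 <;>
    first
      | (exfalso; clear h2; revert h1; decide)
      | (exfalso; clear h1; revert h2; decide)
      | (fin_cases i <;>
          simp only [Fin.zero_eta, Fin.mk_one, Fin.reduceFinMk, nor0, nor1, nor2, nor3, nor4, nor5, q0, q1, q2,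
            q3, q4, q5, e0, e1, e2, e3] <;> norm_num)

theorem sgn_good (x : Compl nor) : goodB (sgn nor x) := by
  have hne := x.2
  have n0 := hne 0
  have n1 := hne 1
  have n2 := hne 2
  have n3 := hne 3
  have n4 := hne 4
  have n5 := hne 5
  rw [nor0] at n0
  rw [nor1] at n1
  rw [nor2] at n2
  rw [nor3] at n3
  rw [nor4] at n4
  rw [nor5] at n5
  unfold goodB sgn
  rw [nor0, nor1, nor2, nor3, nor4, nor5]
  rcases lt_or_gt_of_ne n0 with m0 | m0
  · have f0 : ¬ (0 < x.1 0) := not_lt.2 m0.le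
    constructor
    · rintro ⟨h1, h2⟩
      simp only [f0, decide_false] at h1 h2
      have h1' : ¬ (0 < x.1 1) := of_decide_eq_false h1.symm
      have h2' : 0 < x.1 0 + x.1 1 := of_decide_eq_true (by simpa using h2)
      linarith [not_lt.1 h1']
    · rintro ⟨h1, h3, h2⟩
      simp only [f0, decide_false] at h1 h2
      have h1' : ¬ (0 < x.1 2) := of_decide_eq_false h1.symm
      rw [← h1] at h3
      have h3' : ¬ (0 < x.1 3) := of_decide_eq_false h3.symm
      have h2' : 0 < x.1 0 + x.1 2 + x.1 3 := of_decide_eq_true (by simpa using h2)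
      linarith [not_lt.1 h1', not_lt.1 h3']
  · constructor
    · rintro ⟨h1, h2⟩
      simp only [m0, decide_true] at h1 h2
      have h1' : 0 < x.1 1 := of_decide_eq_true h1.symm
      have h2' : ¬ (0 < x.1 0 + x.1 1) := fun h => h2 (decide_eq_true h)
      linarith
    · rintro ⟨h1, h3, h2⟩
      simp only [m0, decide_true] at h1 h2
      have h1' : 0 < x.1 2 := of_decide_eq_true h1.symm
      rw [← h1] at h3
      have h3' : 0 < x.1 3 := of_decide_eq_true h3.symm
      have h2' : ¬ (0 < x.1 0 + x.1 2 + x.1 3) := fun h => h2 (decide_eq_true h)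
      linarith

theorem sg_good (C : Ch nor) : goodB (sg nor C) := by
  obtain ⟨x, rfl⟩ := ConnectedComponents.surjective_coe C
  rw [sg_mk]
  exact sgn_good x

theorem exists_ch (ε : Fin 6 → Bool) (h : goodB ε) : ∃ C : Ch nor, sg nor C = ε := by
  have hs := pt_spec ε h
  have hne : ∀ i, nor i ⬝ᵥ pt ε ≠ 0 := by
    intro i
    cases hi : ε i
    · exact ne_of_lt ((hs i).2 hi)
    · exact ne_of_gt ((hs i).1 hi)
  refine ⟨((⟨pt ε, hne⟩ : Compl nor) : Ch nor), ?_⟩
  rw [sg_mk]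
  funext i
  unfold sgn
  cases hi : ε i
  · exact decide_eq_false (not_lt.2 ((hs i).2 hi).le)
  · exact decide_eq_true ((hs i).1 hi)

/-- the sign vector coded by a mask -/
def bits (m : ℕ) (i : Fin 6) : Bool := m.testBit i.val

theorem goodB_bits (m : ℕ) : goodB (bits m) ↔ good m = true := by
  unfold goodB good bits
  have h : ∀ a b c d e f : Bool, (¬ (a = b ∧ c ≠ a) ∧ ¬ (a = d ∧ d = e ∧ f ≠ a)) ↔
      ((!((a == b) && (c != a)) && !((a == d) && (d == e) && (f != a))) = true) := by decide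
  exact h _ _ _ _ _ _

theorem bits_surj : ∀ ε : Fin 6 → Bool, ∃ m : Fin 64, bits m = ε := by
  have h : ∀ a b c d e f : Bool,
      (a.toNat + 2 * b.toNat + 4 * c.toNat + 8 * d.toNat + 16 * e.toNat + 32 * f.toNat < 64) ∧
      (a.toNat + 2 * b.toNat + 4 * c.toNat + 8 * d.toNat + 16 * e.toNat + 32 * f.toNat).testBit 0 = a ∧
      (a.toNat + 2 * b.toNat + 4 * c.toNat + 8 * d.toNat + 16 * e.toNat + 32 * f.toNat).testBit 1 = b ∧
      (a.toNat + 2 * b.toNat + 4 * c.toNat + 8 * d.toNat + 16 * e.toNat + 32 * f.toNat).testBit 2 = c ∧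
      (a.toNat + 2 * b.toNat + 4 * c.toNat + 8 * d.toNat + 16 * e.toNat + 32 * f.toNat).testBit 3 = d ∧
      (a.toNat + 2 * b.toNat + 4 * c.toNat + 8 * d.toNat + 16 * e.toNat + 32 * f.toNat).testBit 4 = e ∧
      (a.toNat + 2 * b.toNat + 4 * c.toNat + 8 * d.toNat + 16 * e.toNat + 32 * f.toNat).testBit 5 = f := by
    decide +kernel
  intro ε
  obtain ⟨hlt, h0, h1, h2, h3, h4, h5⟩ := h (ε 0) (ε 1) (ε 2) (ε 3) (ε 4) (ε 5)
  refine ⟨⟨_, hlt⟩, funext fun i => ?_⟩
  unfold bits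
  fin_cases i <;> assumption

theorem bits_inj {m m' : ℕ} (hm : m < 64) (hm' : m' < 64) (h : bits m = bits m') : m = m' := by
  refine Nat.eq_of_testBit_eq fun i => ?_
  by_cases hi : i < 6
  · exact congrFun h ⟨i, hi⟩
  · have h64 : (64 : ℕ) = 2 ^ 6 := by norm_num
    rw [Nat.testBit_lt_two_pow (lt_of_lt_of_le (h64 ▸ hm) (Nat.pow_le_pow_right (by norm_num) (by omega))),
      Nat.testBit_lt_two_pow (lt_of_lt_of_le (h64 ▸ hm') (Nat.pow_le_pow_right (by norm_num) (by omega)))]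

theorem good_ite (m : ℕ) : goodB (bits (if good m then m else 0)) := by
  rw [goodB_bits]
  split_ifs with h
  · exact h
  · decide

/-- the chamber coded by a mask (an arbitrary one if there is none) -/
noncomputable def ch (m : ℕ) : Ch nor := (exists_ch _ (good_ite m)).choose

theorem sg_ch {m : ℕ} (h : good m = true) : sg nor (ch m) = bits m := by
  have := (exists_ch _ (good_ite m)).choose_spec
  unfold ch
  rw [this, if_pos h]

theorem ch_surj (C : Ch nor) : ∃ m : Fin 64, good m = true ∧ C = ch m := by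
  obtain ⟨m, hm⟩ := bits_surj (sg nor C)
  have h1 : good m = true := (goodB_bits m).1 (hm ▸ sg_good C)
  exact ⟨m, h1, sg_injective nor (by rw [sg_ch h1, hm])⟩

theorem ch_inj {m m' : ℕ} (hm : m < 64) (hm' : m' < 64) (g : good m = true) (g' : good m' = true)
    (h : ch m = ch m') : m = m' := by
  refine bits_inj hm hm' ?_
  rw [← sg_ch g, ← sg_ch g', h]

theorem card_ch : Nat.card (Ch nor) = 42 := by
  have e : {m : Fin 64 // good m = true} ≃ Ch nor := by
    refine Equiv.ofBijective (fun m => ch m.1) ⟨fun a b h => ?_, fun C => ?_⟩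
    · exact Subtype.ext (Fin.ext (ch_inj a.1.2 b.1.2 a.2 b.2 h))
    · obtain ⟨m, h1, h2⟩ := ch_surj C
      exact ⟨⟨m, h1⟩, h2.symm⟩
  rw [← Nat.card_congr e, Nat.card_eq_fintype_card, Fintype.card_subtype, chk_card]

instance : Finite (Ch nor) := Finite.of_injective _ (sg_injective nor)

instance : Nonempty (Ch nor) := ⟨ch 0⟩

theorem xor_lt {m m' : ℕ} (h : m < 64) (h' : m' < 64) : m ^^^ m' < 64 := by
  have h64 : (64 : ℕ) = 2 ^ 6 := by norm_num
  rw [h64] at h h' ⊢
  exact Nat.xor_lt_two_pow h h'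

theorem sd_ch {m m' : ℕ} (hm' : m < 64) (hm'' : m' < 64) (g : good m = true) (g' : good m' = true) :
    sd (ch m) (ch m') = hm m m' := by
  unfold sd hm
  rw [sg_ch g, sg_ch g', ← chk_pc ⟨m ^^^ m', xor_lt hm' hm''⟩]
  congr 1
  ext i
  simp only [Finset.mem_filter, Finset.mem_univ, true_and, bits, Nat.testBit_xor]
  cases m.testBit i <;> cases m'.testBit i <;> simp

theorem step (C C' : Ch nor) (h : C ≠ C') : ∃ D, sd C D = 1 ∧ sd D C' + 1 = sd C C' := by
  obtain ⟨m, g, rfl⟩ := ch_surj C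
  obtain ⟨m', g', rfl⟩ := ch_surj C'
  have hne : m ≠ m' := fun h' => h (by rw [h'])
  obtain ⟨i, hi1, hi2⟩ := chk_step m m' g g' hne
  have hlt : m.val ^^^ 2 ^ i.val < 64 := by
    refine xor_lt m.2 ?_
    have : (2 : ℕ) ^ i.val < 2 ^ 6 := Nat.pow_lt_pow_right (by norm_num) i.2
    simpa using this
  refine ⟨ch (m.val ^^^ 2 ^ i.val), ?_, ?_⟩
  · rw [sd_ch m.2 hlt g hi1]
    unfold hm
    rw [← Nat.xor_assoc, Nat.xor_self, Nat.zero_xor]
    have : ∀ i : Fin 6, pc (2 ^ i.val) = 1 := by decide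
    exact this i
  · rw [sd_ch hlt m'.2 hi1 g', sd_ch m.2 m'.2 g g']
    exact hi2

theorem conn : (tope nor).Connected := connected step

theorem dist_ch {m m' : ℕ} (hm' : m < 64) (hm'' : m' < 64) (g : good m = true) (g' : good m' = true) :
    (tope nor).dist (ch m) (ch m') = hm m m' := by
  rw [dist_eq step, sd_ch hm' hm'' g g']

end Pool.Agent.Q285.Mag
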