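import Mathlib

/-!
# Magnitude homology of the tope graph of a hyperplane arrangement
-/

set_option autoImplicit false

namespace Pool.Agent.Q285.Mag

/-! ### Magnitude homology of a graph -/

section graph

variable {V : Type} (G : SimpleGraph V)

/-- the length `d(x₀,x₁) + d(x₁,x₂) + ⋯` of a tuple -/
noncomputable def len : List V → ℕ
  | a :: b :: l => G.dist a b + len (b :: l)
  | _ => 0

open Classical in
/-- `∂(x₀,…,x_k) = ∑_{i=1}^{k-1} (-1)^i ∂_i`, where `∂_i` deletes `x_i` if
`d(x_{i-1},x_{i+1}) = d(x_{i-1},x_i) + d(x_i,x_{i+1})` and is `0` otherwise: the term `i = 1`, and the other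
terms as `-(x₀, ∂(x₁,…,x_k))` -/
noncomputable def bd : List V → (List V →₀ ℤ)
  | a :: b :: c :: l =>
    (if G.dist a c = G.dist a b + G.dist b c then -Finsupp.single (a :: c :: l) 1 else 0)
      - (bd (b :: c :: l)).mapDomain (List.cons a)
  | _ => 0

/-- the differential -/
noncomputable def del : (List V →₀ ℤ) →ₗ[ℤ] (List V →₀ ℤ) := Finsupp.linearCombination ℤ (bd G)

/-- the tuples `(x₀,…,x_k)` with `x_{i-1} ≠ x_i` and length `ℓ` -/
def tuples (k ℓ : ℕ) : Set (List V) := {l | l.length = k + 1 ∧ l.IsChain (· ≠ ·) ∧ len G l = ℓ}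

/-- `MC_{k,ℓ}` -/
noncomputable def MC (k ℓ : ℕ) : Submodule ℤ (List V →₀ ℤ) := Finsupp.supported ℤ ℤ (tuples G k ℓ)

/-- the cycles -/
noncomputable def Z (k ℓ : ℕ) : Submodule ℤ (List V →₀ ℤ) := MC G k ℓ ⊓ LinearMap.ker (del G)

/-- the boundaries -/
noncomputable def B (k ℓ : ℕ) : Submodule ℤ (List V →₀ ℤ) := (MC G (k + 1) ℓ).map (del G)

/-- magnitude homology `MH_{k,ℓ}` -/
abbrev MH (k ℓ : ℕ) : Type := Z G k ℓ ⧸ (B G k ℓ).submoduleOf (Z G k ℓ)

/-- the magnitude Betti number `β_{k,ℓ}` -/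
noncomputable def betti (k ℓ : ℕ) : ℕ := Module.finrank ℤ (MH G k ℓ)

end graph

/-! ### Arrangements -/

section arrangement

variable {d n : ℕ}

/-- the hyperplane `α_i · x = 0` -/
def hyp (α : Fin n → Fin d → ℝ) (i : Fin n) : Submodule ℝ (Fin d → ℝ) where
  carrier := {x | α i ⬝ᵥ x = 0}
  add_mem' := fun {a b} ha hb => by
    simp only [Set.mem_ofPred_eq, dotProduct_add] at *
    rw [ha, hb, add_zero]
  zero_mem' := by simp
  smul_mem' := fun c x hx => by
    simp only [Set.mem_ofPred_eq, dotProduct_smul] at *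
    rw [hx, smul_zero]

theorem mem_hyp {α : Fin n → Fin d → ℝ} {i : Fin n} {x : Fin d → ℝ} : x ∈ hyp α i ↔ α i ⬝ᵥ x = 0 :=
  Iff.rfl

/-- `n` distinct hyperplanes through the origin in `ℝ^d`, given by normal vectors -/
def IsArrangement (α : Fin n → Fin d → ℝ) : Prop := (∀ i, α i ≠ 0) ∧ Function.Injective (hyp α)

/-- `r = d - dim ⋂ H` -/
noncomputable def rank (α : Fin n → Fin d → ℝ) : ℕ :=
  d - Module.finrank ℝ (⨅ i, hyp α i : Submodule ℝ (Fin d → ℝ))

/-- no decomposition `ℝ^d = V₁ ⊕ V₂` with every hyperplane of the form `H₁ ⊕ V₂` or `V₁ ⊕ H₂`, both kinds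
occurring -/
def Indecomposable (α : Fin n → Fin d → ℝ) : Prop :=
  ¬ ∃ V₁ V₂ : Submodule ℝ (Fin d → ℝ), IsCompl V₁ V₂ ∧ (∀ i, V₁ ≤ hyp α i ∨ V₂ ≤ hyp α i) ∧
    (∃ i, V₁ ≤ hyp α i) ∧ ∃ i, V₂ ≤ hyp α i

/-- the complement of the hyperplanes -/
abbrev Compl (α : Fin n → Fin d → ℝ) : Type := {x : Fin d → ℝ // ∀ i, α i ⬝ᵥ x ≠ 0}

/-- the chambers: the connected components of the complement -/
abbrev Ch (α : Fin n → Fin d → ℝ) : Type := ConnectedComponents (Compl α)

/-- the `i`-th hyperplane separates the two chambers -/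
def Sep (α : Fin n → Fin d → ℝ) (i : Fin n) (C C' : Ch α) : Prop :=
  ∀ x x' : Compl α, (x : Ch α) = C → (x' : Ch α) = C' → (α i ⬝ᵥ x.1) * (α i ⬝ᵥ x'.1) < 0

/-- the tope graph: chambers, adjacent when exactly one hyperplane separates them -/
def tope (α : Fin n → Fin d → ℝ) : SimpleGraph (Ch α) where
  Adj C C' := ∃! i, Sep α i C C'
  symm := ⟨fun C C' ⟨i, hi, hu⟩ => ⟨i, fun x x' h h' => by
      have := hi x' x h' h
      linarith [mul_comm (α i ⬝ᵥ x.1) (α i ⬝ᵥ x'.1)], fun j hj => hu j fun x x' h h' => by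
      have := hj x' x h' h
      linarith [mul_comm (α j ⬝ᵥ x.1) (α j ⬝ᵥ x'.1)]⟩⟩
  loopless := ⟨fun C ⟨i, hi, _⟩ => by
    obtain ⟨x, rfl⟩ := ConnectedComponents.surjective_coe C
    have := hi x x rfl rfl
    nlinarith [mul_self_nonneg (α i ⬝ᵥ x.1)]⟩

/-- the sign vector of a point of the complement -/
noncomputable def sgn (α : Fin n → Fin d → ℝ) (x : Compl α) (i : Fin n) : Bool := decide (0 < α i ⬝ᵥ x.1)

theorem continuous_sgn (α : Fin n → Fin d → ℝ) : Continuous (sgn α) := by
  refine continuous_pi fun i => ?_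
  have hc : Continuous fun x : Compl α => α i ⬝ᵥ x.1 := by
    unfold dotProduct
    exact continuous_finsetSum _ fun j _ => continuous_const.mul
      ((continuous_apply j).comp continuous_subtype_val)
  have : IsClopen {x : Compl α | 0 < α i ⬝ᵥ x.1} := by
    refine ⟨?_, isOpen_lt continuous_const hc⟩
    have : {x : Compl α | 0 < α i ⬝ᵥ x.1} = {x | 0 ≤ α i ⬝ᵥ x.1} := by
      ext x
      exact ⟨fun h => le_of_lt (show 0 < α i ⬝ᵥ x.1 from h),
        fun h => lt_of_le_of_ne (show 0 ≤ α i ⬝ᵥ x.1 from h) (Ne.symm (x.2 i))⟩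
    rw [this]
    exact isClosed_le continuous_const hc
  have h2 := (continuous_boolIndicator_iff_isClopen _).2 this
  refine h2.congr fun x => ?_
  unfold Set.boolIndicator sgn
  simp

/-- the sign vector of a chamber -/
noncomputable def sg (α : Fin n → Fin d → ℝ) : Ch α → Fin n → Bool :=
  (continuous_sgn α).connectedComponentsLift

theorem sg_mk (α : Fin n → Fin d → ℝ) (x : Compl α) : sg α x = sgn α x :=
  Continuous.connectedComponentsLift_apply_coe _ _

theorem sg_injective (α : Fin n → Fin d → ℝ) : Function.Injective (sg α) := by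
  intro C C' h
  obtain ⟨x, rfl⟩ := ConnectedComponents.surjective_coe C
  obtain ⟨y, rfl⟩ := ConnectedComponents.surjective_coe C'
  rw [sg_mk, sg_mk] at h
  rw [ConnectedComponents.coe_eq_coe]
  have hpre : IsPreconnected {z : Compl α | sgn α z = sgn α x} := by
    refine (Topology.IsInducing.isPreconnected_image
      (f := (Subtype.val : Compl α → (Fin d → ℝ))) ⟨rfl⟩).1 ?_
    have : ((Subtype.val : Compl α → (Fin d → ℝ)) '' {z : Compl α | sgn α z = sgn α x}) =
        ⋂ i, (if sgn α x i then {z : Fin d → ℝ | 0 < α i ⬝ᵥ z} else {z | α i ⬝ᵥ z < 0}) := by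
      ext z
      simp only [Set.mem_image, Set.mem_ofPred_eq, Subtype.exists, exists_and_right, exists_eq_right,
        Set.mem_iInter]
      constructor
      · rintro ⟨hz, hs⟩ i
        have h1 := congrFun hs i
        have h2 := hz i
        rw [← h1]
        unfold sgn
        by_cases h3 : 0 < α i ⬝ᵥ z
        · simp [h3]
        · simp only [h3, decide_false, Bool.false_eq_true, if_false, Set.mem_ofPred_eq]
          exact lt_of_le_of_ne (not_lt.1 h3) h2
      · intro hz
        have hne : ∀ i, α i ⬝ᵥ z ≠ 0 := by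
          intro i
          have := hz i
          split_ifs at this
          · exact ne_of_gt this
          · exact ne_of_lt this
        refine ⟨hne, funext fun i => ?_⟩
        have := hz i
        split_ifs at this with h3
        · rw [h3]
          exact decide_eq_true this
        · rw [Bool.not_eq_true] at h3
          rw [h3]
          exact decide_eq_false (not_lt.2 (le_of_lt this))
    rw [this]
    refine Convex.isPreconnected (convex_iInter fun i => ?_)
    have hl : IsLinearMap ℝ fun z : Fin d → ℝ => α i ⬝ᵥ z :=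
      ⟨fun a b => dotProduct_add _ _ _, fun c a => dotProduct_smul _ _ _⟩
    split_ifs
    · exact convex_halfSpace_gt hl 0
    · exact convex_halfSpace_lt hl 0
  exact (connectedComponent_eq (hpre.subset_connectedComponent (x := x) rfl h.symm))

theorem sep_iff {α : Fin n → Fin d → ℝ} {i : Fin n} {C C' : Ch α} : Sep α i C C' ↔ sg α C i ≠ sg α C' i := by
  constructor
  · intro h
    obtain ⟨x, rfl⟩ := ConnectedComponents.surjective_coe C
    obtain ⟨y, rfl⟩ := ConnectedComponents.surjective_coe C'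
    have h1 := h x y rfl rfl
    rw [sg_mk, sg_mk]
    unfold sgn
    intro h2
    rcases lt_or_gt_of_ne (x.2 i) with h3 | h3 <;> rcases lt_or_gt_of_ne (y.2 i) with h4 | h4
    · nlinarith
    · simp [h4, not_lt.2 h3.le] at h2
    · simp [h3, not_lt.2 h4.le] at h2
    · nlinarith
  · intro h x y hx hy
    rw [← hx, ← hy, sg_mk, sg_mk] at h
    unfold sgn at h
    rcases lt_or_gt_of_ne (x.2 i) with h3 | h3 <;> rcases lt_or_gt_of_ne (y.2 i) with h4 | h4
    · simp [not_lt.2 h3.le, not_lt.2 h4.le] at h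
    · nlinarith
    · nlinarith
    · simp [h3, h4] at h

theorem adj_iff {α : Fin n → Fin d → ℝ} {C C' : Ch α} :
    (tope α).Adj C C' ↔ ∃! i, sg α C i ≠ sg α C' i := by
  change (∃! i, Sep α i C C') ↔ _
  simp only [sep_iff]

end arrangement

end Pool.Agent.Q285.Mag
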