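import Pool.Agent.Q285.Mag.Defs

/-!
# The distance in the tope graph
-/

set_option autoImplicit false

namespace Pool.Agent.Q285.Mag

variable {d n : ℕ} {α : Fin n → Fin d → ℝ}

/-- the number of hyperplanes which separate two chambers -/
noncomputable def sd (C C' : Ch α) : ℕ := (Finset.univ.filter fun i => sg α C i ≠ sg α C' i).card

theorem sd_triangle (C C' C'' : Ch α) : sd C C'' ≤ sd C C' + sd C' C'' := by
  classical
  unfold sd
  refine le_trans (Finset.card_le_card ?_) (Finset.card_union_le _ _)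
  intro i hi
  simp only [Finset.mem_filter, Finset.mem_univ, true_and, Finset.mem_union] at hi ⊢
  by_contra h
  push Not at h
  exact hi (h.1.trans h.2)

theorem sd_adj {C C' : Ch α} : (tope α).Adj C C' ↔ sd C C' = 1 := by
  rw [adj_iff]
  unfold sd
  rw [Finset.card_eq_one]
  constructor
  · rintro ⟨i, hi, hu⟩
    refine ⟨i, ?_⟩
    ext j
    simp only [Finset.mem_filter, Finset.mem_univ, true_and, Finset.mem_singleton]
    exact ⟨fun h => hu j h, fun h => h ▸ hi⟩
  · rintro ⟨i, hi⟩
    have h : ∀ j, (sg α C j ≠ sg α C' j) ↔ j = i := by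
      intro j
      have := Finset.ext_iff.1 hi j
      simpa only [Finset.mem_filter, Finset.mem_univ, true_and, Finset.mem_singleton] using this
    exact ⟨i, (h i).2 rfl, fun j hj => (h j).1 hj⟩

theorem sd_self (C : Ch α) : sd C C = 0 := by
  unfold sd
  simp

theorem eq_of_sd {C C' : Ch α} (h : sd C C' = 0) : C = C' := by
  unfold sd at h
  rw [Finset.card_eq_zero] at h
  refine sg_injective α (funext fun i => ?_)
  by_contra hi
  have : i ∈ Finset.univ.filter fun i => sg α C i ≠ sg α C' i := by simp [hi]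
  rw [h] at this
  simp at this

theorem sd_le_length {C C' : Ch α} (p : (tope α).Walk C C') : sd C C' ≤ p.length := by
  induction p with
  | nil => rw [sd_self]; exact Nat.zero_le _
  | @cons u v w h p ih =>
    rw [SimpleGraph.Walk.length_cons]
    have h1 := sd_triangle u v w
    rw [sd_adj.1 h] at h1
    omega

theorem exists_walk (hs : ∀ C C' : Ch α, C ≠ C' → ∃ D, sd C D = 1 ∧ sd D C' + 1 = sd C C') :
    ∀ k : ℕ, ∀ C C' : Ch α, sd C C' = k → ∃ p : (tope α).Walk C C', p.length = k := by
  intro k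
  induction k with
  | zero =>
    intro C C' h
    obtain rfl := eq_of_sd h
    exact ⟨SimpleGraph.Walk.nil, rfl⟩
  | succ k ih =>
    intro C C' h
    have hne : C ≠ C' := by
      rintro rfl
      rw [sd_self] at h
      omega
    obtain ⟨D, h1, h2⟩ := hs C C' hne
    obtain ⟨p, hp⟩ := ih D C' (by omega)
    exact ⟨SimpleGraph.Walk.cons (sd_adj.2 h1) p, by rw [SimpleGraph.Walk.length_cons, hp]⟩

theorem dist_eq (hs : ∀ C C' : Ch α, C ≠ C' → ∃ D, sd C D = 1 ∧ sd D C' + 1 = sd C C') (C C' : Ch α) :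
    (tope α).dist C C' = sd C C' := by
  obtain ⟨p, hp⟩ := exists_walk hs _ C C' rfl
  refine le_antisymm (hp ▸ SimpleGraph.dist_le p) ?_
  have hr : (tope α).Reachable C C' := ⟨p⟩
  obtain ⟨q, hq⟩ := hr.exists_walk_length_eq_dist
  rw [← hq]
  exact sd_le_length q

theorem connected [Nonempty (Ch α)]
    (hs : ∀ C C' : Ch α, C ≠ C' → ∃ D, sd C D = 1 ∧ sd D C' + 1 = sd C C') : (tope α).Connected :=
  ⟨fun C C' => ⟨(exists_walk hs _ C C' rfl).choose⟩⟩

end Pool.Agent.Q285.Mag
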