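import Pool.Agent.Q285.Mag.AntiC

/-!
# Values of the cocycles at the cycles
-/

set_option autoImplicit false

namespace Pool.Agent.Q285.Mag

variable {V : Type}

theorem loopF_loopC {h : Fin 6 → V} (hi : Function.Injective h) {A : V → Prop} (A1 : A (h 1)) (A2 : A (h 2))
    (A4 : ¬ A (h 4)) (A5 : ¬ A (h 5)) : fun' (loopF (h 0) (h 3) A) (loopC h) = 1 := by
  classical
  have h23 : h 2 ≠ h 3 := hi.ne (by decide)
  have h43 : h 4 ≠ h 3 := hi.ne (by decide)
  unfold loopC
  simp only [map_add, map_sub, fun'_single, loopF]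
  simp [A1, A2, A4, A5, h23, h43]

theorem loopF_loopC_ne {h : Fin 6 → V} {A : V → Prop} {a a' : V} (ha : h 0 ≠ a) :
    fun' (loopF a a' A) (loopC h) = 0 := by
  classical
  unfold loopC
  simp only [map_add, map_sub, fun'_single, loopF]
  simp [ha]

theorem loopF_antiC {y : Fin 16 → V} {A : V → Prop} {a a' : V} (hy : y 0 ≠ y 15) :
    fun' (loopF a a' A) (antiC y) = 0 := by
  classical
  unfold antiC
  simp only [map_add, map_sub, fun'_single, loopF]
  by_cases h0 : y 0 = a
  · have h15 : y 15 ≠ a := fun h => hy (h0.trans h.symm)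
    simp [h15]
  · simp [h0]

theorem antiF_loopC {h : Fin 6 → V} {a b : V} {p : V → Fin 4 → Bool} (hab : a ≠ b) :
    fun' (antiF a b p) (loopC h) = 0 := by
  classical
  unfold loopC
  simp only [map_add, map_sub, fun'_single, antiF]
  by_cases h0 : h 0 = a
  · have h15 : h 0 ≠ b := fun h => hab (h0.symm.trans h)
    simp [h15]
  · simp [h0]

theorem antiF_antiC_ne {y : Fin 16 → V} {a b : V} {p : V → Fin 4 → Bool} (ha : y 0 ≠ a) :
    fun' (antiF a b p) (antiC y) = 0 := by
  classical
  unfold antiC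
  simp only [map_add, map_sub, fun'_single, antiF]
  simp [ha]

end Pool.Agent.Q285.Mag
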