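import Pool.Agent.Q285.Mag.Defs

/-!
# Lower bounds for magnitude Betti numbers
-/

set_option autoImplicit false

namespace Pool.Agent.Q285.Mag

open Finsupp

variable {V : Type} (G : SimpleGraph V)

theorem del_single (l : List V) (m : ℤ) : del G (single l m) = m • bd G l := by
  unfold del
  rw [linearCombination_single]

theorem tuples_finite [Finite V] (k ℓ : ℕ) : (tuples G k ℓ).Finite :=
  (List.finite_length_eq V (k + 1)).subset fun _ hl => hl.1

instance [Finite V] (k ℓ : ℕ) : Module.Finite ℤ (MC G k ℓ) := by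
  have : Finite (tuples G k ℓ) := (tuples_finite G k ℓ).to_subtype
  exact Module.Finite.equiv (supportedEquivFinsupp (M := ℤ) (R := ℤ) (tuples G k ℓ)).symm

instance [Finite V] (k ℓ : ℕ) : Module.Finite ℤ (Z G k ℓ) :=
  Module.Finite.of_injective (Submodule.inclusion (inf_le_left : Z G k ℓ ≤ MC G k ℓ))
    (Submodule.inclusion_injective _)

/-- a lower bound from cycles and cocycles -/
theorem card_le_betti [Finite V] (k ℓ : ℕ) {I : Type} [Fintype I] [DecidableEq I] (c : I → (List V →₀ ℤ))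
    (φ : I → ((List V →₀ ℤ) →ₗ[ℤ] ℤ)) (hc : ∀ i, c i ∈ Z G k ℓ) (hφ : ∀ i, ∀ m ∈ B G k ℓ, φ i m = 0)
    (hd : ∀ i j, φ i (c j) = if i = j then 1 else 0) : Fintype.card I ≤ betti G k ℓ := by
  have hli : LinearIndependent ℤ fun i =>
      (Submodule.Quotient.mk (⟨c i, hc i⟩ : Z G k ℓ) : MH G k ℓ) := by
    rw [Fintype.linearIndependent_iff]
    intro g hg j
    have h1 : (Submodule.Quotient.mk (∑ i, g i • (⟨c i, hc i⟩ : Z G k ℓ)) : MH G k ℓ) = 0 := by
      rw [← hg]
      simp only [← Submodule.mkQ_apply, map_sum, map_smul]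
    rw [Submodule.Quotient.mk_eq_zero] at h1
    have h1' : ((∑ i, g i • (⟨c i, hc i⟩ : Z G k ℓ) : Z G k ℓ) : List V →₀ ℤ) ∈ B G k ℓ := h1
    have h2 := hφ j _ h1'
    have h3 : ((∑ i, g i • (⟨c i, hc i⟩ : Z G k ℓ) : Z G k ℓ) : List V →₀ ℤ) = ∑ i, g i • c i := by
      simp only [Submodule.coe_sum, Submodule.coe_smul]
    rw [h3, map_sum] at h2
    simpa [map_smul, hd] using h2
  exact hli.fintype_card_le_finrank

/-- `β_{0,0}` is the number of vertices -/
theorem betti_zero [Finite V] : betti G 0 0 = Nat.card V := by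
  have : Fintype V := Fintype.ofFinite V
  have ht : tuples G 0 0 = Set.range fun v : V => [v] := by
    ext l
    constructor
    · rintro ⟨h1, _, _⟩
      obtain ⟨a, rfl⟩ := List.length_eq_one_iff.1 h1
      exact ⟨a, rfl⟩
    · rintro ⟨v, rfl⟩
      exact ⟨rfl, by simp, rfl⟩
  have hZ : Z G 0 0 = MC G 0 0 := by
    refine inf_eq_left.2 fun m hm => ?_
    rw [LinearMap.mem_ker]
    unfold del
    rw [linearCombination_apply]
    refine Finset.sum_eq_zero fun l hl => ?_
    have h1 : l ∈ tuples G 0 0 := (mem_supported _ _).1 hm (Finset.mem_coe.2 hl)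
    obtain ⟨a, rfl⟩ := List.length_eq_one_iff.1 h1.1
    simp [bd]
  have hB : B G 0 0 = ⊥ := by
    refine eq_bot_iff.2 ?_
    rintro _ ⟨m, hm, rfl⟩
    rw [Submodule.mem_bot]
    unfold del
    rw [linearCombination_apply]
    refine Finset.sum_eq_zero fun l hl => ?_
    have h1 : l ∈ tuples G (0 + 1) 0 := (mem_supported _ _).1 hm (Finset.mem_coe.2 hl)
    obtain ⟨a, b, rfl⟩ := List.length_eq_two.1 h1.1
    simp [bd]
  unfold betti MH
  rw [hB]
  have h1 : (⊥ : Submodule ℤ (List V →₀ ℤ)).submoduleOf (Z G 0 0) = ⊥ := by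
    rw [Submodule.submoduleOf, Submodule.comap_bot, Submodule.ker_subtype]
  rw [h1]
  have e1 : (Z G 0 0 ⧸ (⊥ : Submodule ℤ (Z G 0 0))) ≃ₗ[ℤ] Z G 0 0 := Submodule.quotEquivOfEqBot _ rfl
  have e2 : Z G 0 0 ≃ₗ[ℤ] MC G 0 0 := LinearEquiv.ofEq _ _ hZ
  have e3 : MC G 0 0 ≃ₗ[ℤ] (tuples G 0 0 →₀ ℤ) := supportedEquivFinsupp _
  rw [(e1.trans (e2.trans e3)).finrank_eq]
  have e4 : V ≃ tuples G 0 0 := by
    rw [ht]
    exact Equiv.ofInjective _ fun a b h => by simpa using h
  have : Fintype (tuples G 0 0) := Fintype.ofEquiv V e4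
  rw [Module.finrank_finsupp_self, Nat.card_eq_fintype_card]
  exact (Fintype.card_congr e4).symm

/-- a functional which kills the boundary of all tuples kills the boundaries -/
theorem vanish_on_B {k ℓ : ℕ} (φ : (List V →₀ ℤ) →ₗ[ℤ] ℤ)
    (h : ∀ l ∈ tuples G (k + 1) ℓ, φ (bd G l) = 0) : ∀ m ∈ B G k ℓ, φ m = 0 := by
  rintro _ ⟨m, hm, rfl⟩
  unfold del
  rw [linearCombination_apply]
  unfold Finsupp.sum
  rw [map_sum]
  refine Finset.sum_eq_zero fun l hl => ?_
  rw [map_smul, h l ((mem_supported _ _).1 hm (Finset.mem_coe.2 hl)), smul_zero]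

end Pool.Agent.Q285.Mag
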