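import Pool.Agent.Q285.Mag.Hom

/-!
# Loop classes
-/

set_option autoImplicit false

namespace Pool.Agent.Q285.Mag

open Finsupp

variable {V : Type} (G : SimpleGraph V)

theorem mapNeg {W : Type} (f : V → W) (x : V →₀ ℤ) : mapDomain f (-x) = -mapDomain f x :=
  (mapDomain.addMonoidHom f : (V →₀ ℤ) →+ (W →₀ ℤ)).map_neg x

open Classical in
theorem bd5 (a b c d e : V) : bd G [a, b, c, d, e] =
    -(if G.dist a c = G.dist a b + G.dist b c then single [a, c, d, e] 1 else 0)
    + (if G.dist b d = G.dist b c + G.dist c d then single [a, b, d, e] 1 else 0)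
    - (if G.dist c e = G.dist c d + G.dist d e then single [a, b, c, e] 1 else 0) := by
  simp only [bd, mapDomain_sub, mapDomain_zero, sub_zero, apply_ite (mapDomain (List.cons a)),
    apply_ite (mapDomain (List.cons b)), mapNeg, mapDomain_single]
  split_ifs <;> abel

open Classical in
theorem bd6 (a b c d e f : V) : bd G [a, b, c, d, e, f] =
    -(if G.dist a c = G.dist a b + G.dist b c then single [a, c, d, e, f] 1 else 0)
    + (if G.dist b d = G.dist b c + G.dist c d then single [a, b, d, e, f] 1 else 0)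
    - (if G.dist c e = G.dist c d + G.dist d e then single [a, b, c, e, f] 1 else 0)
    + (if G.dist d f = G.dist d e + G.dist e f then single [a, b, c, d, f] 1 else 0) := by
  rw [bd, bd5]
  simp only [mapDomain_sub, mapDomain_add, mapDomain_zero, apply_ite (mapDomain (List.cons a)),
    mapNeg, mapDomain_single]
  split_ifs <;> abel

theorem mem_tuples5 {a b c d e : V} {ℓ : ℕ} (h1 : a ≠ b) (h2 : b ≠ c) (h3 : c ≠ d) (h4 : d ≠ e)
    (h : G.dist a b + G.dist b c + G.dist c d + G.dist d e = ℓ) : [a, b, c, d, e] ∈ tuples G 4 ℓ := by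
  refine ⟨rfl, ?_, ?_⟩
  · simp [h1, h2, h3, h4]
  · simp only [len]
    omega

theorem tuples6 {l : List V} {ℓ : ℕ} (h : l ∈ tuples G 5 ℓ) : ∃ a b c d e f, l = [a, b, c, d, e, f] ∧
    a ≠ b ∧ b ≠ c ∧ c ≠ d ∧ d ≠ e ∧ e ≠ f ∧
    G.dist a b + G.dist b c + G.dist c d + G.dist d e + G.dist e f = ℓ := by
  obtain ⟨h1, h2, h3⟩ := h
  match l, h1, h2, h3 with
  | [a, b, c, d, e, f], _, h2, h3 =>
    refine ⟨a, b, c, d, e, f, rfl, ?_⟩
    simp only [List.isChain_cons_cons, List.isChain_singleton, and_true] at h2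
    simp only [len] at h3
    refine ⟨h2.1, h2.2.1, h2.2.2.1, h2.2.2.2.1, h2.2.2.2.2, by omega⟩

/-- the functional with value `f l` at the tuple `l` -/
noncomputable def fun' (f : List V → ℤ) : (List V →₀ ℤ) →ₗ[ℤ] ℤ := linearCombination ℤ f

theorem fun'_single (f : List V → ℤ) (l : List V) : fun' f (single l 1) = f l := by
  unfold fun'
  rw [linearCombination_single, one_smul]

open Classical in
/-- the cocycle of a loop `a → a' → a` -/
noncomputable def loopF (a a' : V) (A : V → Prop) : List V → ℤ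
  | [x₀, x₁, x₂, x₃, x₄] => if x₀ = a ∧ A x₁ ∧ x₂ = a' ∧ A x₃ ∧ x₄ = a then 1 else 0
  | _ => 0

theorem loop_cocycle (hG : G.Connected) {a a' : V} {A : V → Prop}
    (hA : ∀ u v, u ≠ a → v ≠ a' → u ≠ v →
      G.dist a u + G.dist u v + G.dist v a' = G.dist a a' → (A u ↔ A v)) :
    ∀ m ∈ B G 4 (2 * G.dist a a'), fun' (loopF a a' A) m = 0 := by
  classical
  refine vanish_on_B G _ fun l hl => ?_
  obtain ⟨x₀, x₁, x₂, x₃, x₄, x₅, rfl, h01, h12, h23, h34, h45, hlen⟩ := tuples6 G hl
  rw [bd6]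
  simp only [map_add, map_sub, map_neg, apply_ite (fun' (loopF a a' A)), map_zero, fun'_single]
  by_cases h0 : x₀ = a
  swap
  · simp [loopF, h0]
  by_cases h5 : x₅ = a
  swap
  · simp [loopF, h5]
  subst h0
  rw [h5] at h45 hlen ⊢
  by_cases h3 : x₃ = a'
  · have h2 : x₂ ≠ a' := fun h => h23 (h.trans h3.symm)
    rw [h3] at h34 hlen ⊢
    have t1 := hG.dist_triangle (u := x₀) (v := x₂) (w := a')
    have t2 := hG.dist_triangle (u := x₀) (v := x₁) (w := x₂)
    have t3 := hG.dist_triangle (u := x₁) (v := x₂) (w := a')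
    have t4 := hG.dist_triangle (u := x₀) (v := x₁) (w := a')
    have t5 := hG.dist_triangle (u := a') (v := x₄) (w := x₀)
    have t6 : G.dist a' x₀ = G.dist x₀ a' := SimpleGraph.dist_comm
    have hA' := hA x₁ x₂ h01.symm h2 h12 (by omega)
    rw [if_pos (by omega), if_pos (by omega)]
    simp [loopF, h2, hA']
  · by_cases h2 : x₂ = a'
    · rw [h2] at h12 h23 hlen ⊢
      have t1 := hG.dist_triangle (u := a') (v := x₃) (w := x₀)
      have t2 := hG.dist_triangle (u := a') (v := x₃) (w := x₄)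
      have t3 := hG.dist_triangle (u := x₃) (v := x₄) (w := x₀)
      have t4 := hG.dist_triangle (u := a') (v := x₄) (w := x₀)
      have t5 := hG.dist_triangle (u := x₀) (v := x₁) (w := a')
      have t6 : G.dist a' x₀ = G.dist x₀ a' := SimpleGraph.dist_comm
      have t7 : G.dist x₄ x₀ = G.dist x₀ x₄ := SimpleGraph.dist_comm
      have t8 : G.dist x₃ x₄ = G.dist x₄ x₃ := SimpleGraph.dist_comm
      have t9 : G.dist a' x₃ = G.dist x₃ a' := SimpleGraph.dist_comm
      have hA' := hA x₄ x₃ h45 h3 h34.symm (by omega)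
      rw [if_pos (c := G.dist a' x₄ = _) (by omega), if_pos (c := G.dist x₃ x₀ = _) (by omega)]
      simp [loopF, h3, hA']
    · simp [loopF, h2, h3]

/-- the distance in the hexagon -/
def cyc (i j : Fin 6) : ℕ := ![0, 1, 2, 3, 2, 1] (i - j)

/-- the cycle of a loop in a hexagon -/
noncomputable def loopC (h : Fin 6 → V) : List V →₀ ℤ :=
  single [h 0, h 1, h 3, h 2, h 0] 1 - single [h 0, h 1, h 3, h 4, h 0] 1
  - single [h 0, h 5, h 3, h 2, h 0] 1 + single [h 0, h 5, h 3, h 4, h 0] 1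
  + single [h 0, h 1, h 2, h 4, h 0] 1 - single [h 0, h 2, h 4, h 5, h 0] 1
  - single [h 0, h 1, h 2, h 5, h 0] 1 + single [h 0, h 5, h 4, h 2, h 0] 1
  - single [h 0, h 4, h 2, h 1, h 0] 1 - single [h 0, h 5, h 4, h 1, h 0] 1

theorem loopC_mem {h : Fin 6 → V} (hi : Function.Injective h)
    (hh : ∀ i j, G.dist (h i) (h j) = cyc i j) : loopC h ∈ Z G 4 6 := by
  classical
  have hs : ∀ i j k l m : Fin 6, i ≠ j → j ≠ k → k ≠ l → l ≠ m → cyc i j + cyc j k + cyc k l + cyc l m = 6 →
      (single [h i, h j, h k, h l, h m] 1 : List V →₀ ℤ) ∈ MC G 4 6 := by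
    intro i j k l m h1 h2 h3 h4 h5
    refine single_mem_supported ℤ 1 (mem_tuples5 G (hi.ne h1) (hi.ne h2) (hi.ne h3) (hi.ne h4) ?_)
    rw [hh, hh, hh, hh]
    exact h5
  refine ⟨?_, ?_⟩
  · unfold loopC
    refine sub_mem (sub_mem (add_mem (sub_mem (sub_mem (add_mem (add_mem (sub_mem (sub_mem
      ?_ ?_) ?_) ?_) ?_) ?_) ?_) ?_) ?_) ?_
    all_goals exact hs _ _ _ _ _ (by decide) (by decide) (by decide) (by decide) (by decide)
  · change del G (loopC h) = 0
    unfold loopC
    simp only [map_add, map_sub, del_single, one_smul, bd5, hh]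
    simp (decide := true) only [if_true, if_false]
    abel

end Pool.Agent.Q285.Mag
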